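import Mathlib
import Pool.Agent.U73.LS.Stm
import Pool.Agent.U73.LR.Tl

set_option autoImplicit false

/-!
# Project LS, package SMALL (helper978, after the proofs of helper73 in `U73/LR/Tl.lean`)
-/

namespace Pool.Agent.U978.LS

open Finset Filter Topology
open Pool.Agent.U73.LR Pool.Agent.U73.LS

/-- pairs determined by the second coordinate -/
theorem det_second {X : ℝ} (hX : 1 ≤ X) (F : Finset (ℤ × ℤ)) (hF : ∀ x ∈ F, |(x.2 : ℝ)| ≤ X ^ 3)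
    (hinj : ∀ x ∈ F, ∀ y ∈ F, x.2 = y.2 → x.1 = y.1) : (F.card : ℝ) ≤ 3 * X ^ 3 := by
  refine le_trans ?_ (Pool.Agent.U73.SZ.card_Icc_le (X ^ 3) (one_le_pow₀ hX))
  have : F.card ≤ (Icc (-⌊X ^ 3⌋) ⌊X ^ 3⌋).card := by
    apply Finset.card_le_card_of_injOn (fun q : ℤ × ℤ => q.2)
    · intro x hx
      rw [Finset.mem_coe, mem_Icc_floor]
      exact hF x hx
    · intro x hx y hy hxy
      exact Prod.ext (hinj x hx y hy hxy) hxy
  exact_mod_cast this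

theorem bound {X : ℝ} (hX : 1 ≤ X) (z : ℕ) (hz : 1 ≤ z) :
    cnt X (fun a b => a ^ 3 = b ^ 2 ∨ ∃ p : ℕ, p.Prime ∧ z ≤ p ∧ (p : ℤ) ∣ a ∧ (p : ℤ) ∣ b) ≤
      6 * X ^ 3 + 18 * X ^ 5 / z := by
  classical
  have hX0 : 0 < X := by linarith
  obtain ⟨G, hG⟩ : ∃ G : ℕ → Finset (ℤ × ℤ), G = fun p : ℕ => (box X).filter
    (fun q => q.1 ≠ 0 ∧ 1 ≤ p ∧ (p : ℤ) ∣ q.1 ∧ (p : ℤ) ∣ q.2) := ⟨_, rfl⟩
  have hG' : ∀ p x, x ∈ G p ↔ (|(x.1 : ℝ)| ≤ X ^ 2 ∧ |(x.2 : ℝ)| ≤ X ^ 3) ∧ x.1 ≠ 0 ∧ 1 ≤ p ∧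
      ((p : ℤ) ∣ x.1 ∧ (p : ℤ) ∣ x.2) := by
    intro p x
    rw [hG]
    simp only [Finset.mem_filter, mem_box]
  have hsize : ∀ p x, x ∈ G p → (p : ℝ) ≤ X ^ 2 := by
    intro p x hx
    rw [hG'] at hx
    obtain ⟨⟨h1, h2⟩, h3, h4, h5, h6⟩ := hx
    have h7 := Int.le_of_dvd (abs_pos.2 h3) ((dvd_abs _ _).2 h5)
    have h8 : (p : ℝ) ≤ |(x.1 : ℝ)| := by exact_mod_cast h7
    linarith
  have hcard : ∀ p : ℕ, 1 ≤ p → ((G p).card : ℝ) ≤ 9 * X ^ 5 * (1 / (p : ℝ) ^ 2) := by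
    intro p hp
    have hp0 : (0 : ℝ) < p := by exact_mod_cast hp
    have hp1 : (1 : ℝ) ≤ p := by exact_mod_cast hp
    by_cases hpX : (p : ℝ) ≤ X ^ 2
    · have g1 : 1 ≤ X ^ 2 / (p : ℝ) := by
        rw [one_le_div (by positivity)]
        exact hpX
      have g2 : 1 ≤ X ^ 3 / (p : ℝ) := by
        rw [one_le_div (by positivity)]
        refine hpX.trans ?_
        exact pow_le_pow_right₀ hX (by norm_num)
      have g3 := Pool.Agent.U73.SZ.card_Icc_le _ g1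
      have g4 := Pool.Agent.U73.SZ.card_Icc_le _ g2
      have hpz : (p : ℤ) ≠ 0 := by exact_mod_cast (by omega : p ≠ 0)
      have g5 : (G p).card ≤ ((Icc (-⌊X ^ 2 / (p : ℝ)⌋) ⌊X ^ 2 / (p : ℝ)⌋) ×ˢ
          (Icc (-⌊X ^ 3 / (p : ℝ)⌋) ⌊X ^ 3 / (p : ℝ)⌋)).card := by
        apply Finset.card_le_card_of_injOn (fun q : ℤ × ℤ => (q.1 / (p : ℤ), q.2 / (p : ℤ)))
        · intro x hx
          rw [Finset.mem_coe, hG'] at hx
          obtain ⟨⟨h1, h2⟩, h3, h4, ⟨s, h5⟩, ⟨t, h6⟩⟩ := hx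
          have e1 : x.1 / (p : ℤ) = s := by rw [h5]; exact Int.mul_ediv_cancel_left _ hpz
          have e2 : x.2 / (p : ℤ) = t := by rw [h6]; exact Int.mul_ediv_cancel_left _ hpz
          rw [Finset.mem_coe, Finset.mem_product, mem_Icc_floor, mem_Icc_floor]
          simp only [e1, e2]
          rw [h5] at h1
          rw [h6] at h2
          push_cast at h1 h2
          rw [abs_mul, Nat.abs_cast] at h1 h2
          rw [le_div_iff₀ (by positivity), le_div_iff₀ (by positivity)]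
          exact ⟨by linarith, by linarith⟩
        · intro x hx y hy hxy
          rw [Finset.mem_coe, hG'] at hx hy
          obtain ⟨-, -, -, h5, h6⟩ := hx
          obtain ⟨-, -, -, h7, h8⟩ := hy
          simp only [Prod.mk.injEq] at hxy
          ext
          · rw [← Int.ediv_mul_cancel h5, hxy.1, Int.ediv_mul_cancel h7]
          · rw [← Int.ediv_mul_cancel h6, hxy.2, Int.ediv_mul_cancel h8]
      rw [Finset.card_product] at g5
      calc ((G p).card : ℝ) ≤ ((Icc (-⌊X ^ 2 / (p : ℝ)⌋) ⌊X ^ 2 / (p : ℝ)⌋).card : ℝ) *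
            ((Icc (-⌊X ^ 3 / (p : ℝ)⌋) ⌊X ^ 3 / (p : ℝ)⌋).card : ℝ) := by exact_mod_cast g5
        _ ≤ (3 * (X ^ 2 / (p : ℝ))) * (3 * (X ^ 3 / (p : ℝ))) := by gcongr
        _ = 9 * X ^ 5 * (1 / (p : ℝ) ^ 2) := by field_simp; ring
    · have : G p = ∅ := by
        rw [Finset.eq_empty_iff_forall_notMem]
        intro x hx
        exact hpX (hsize p x hx)
      rw [this, Finset.card_empty]
      push_cast
      positivity
  obtain ⟨F₁, hF₁⟩ : ∃ F₁ : Finset (ℤ × ℤ), F₁ = (box X).filter (fun q => q.1 ^ 3 = q.2 ^ 2) := ⟨_, rfl⟩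
  obtain ⟨F₀, hF₀⟩ : ∃ F₀ : Finset (ℤ × ℤ), F₀ = (box X).filter (fun q => q.1 = 0) := ⟨_, rfl⟩
  have c1 : (F₁.card : ℝ) ≤ 3 * X ^ 3 := by
    apply det_second hX
    · intro x hx
      rw [hF₁, Finset.mem_filter, mem_box] at hx
      exact hx.1.2
    · intro x hx y hy hxy
      rw [hF₁, Finset.mem_filter] at hx hy
      have h : x.1 ^ 3 = y.1 ^ 3 := by rw [hx.2, hy.2, hxy]
      exact (Odd.strictMono_pow (by decide : Odd 3)).injective h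
  have c0 : (F₀.card : ℝ) ≤ 3 * X ^ 3 := by
    apply det_second hX
    · intro x hx
      rw [hF₀, Finset.mem_filter, mem_box] at hx
      exact hx.1.2
    · intro x hx y hy hxy
      rw [hF₀, Finset.mem_filter] at hx hy
      rw [hx.2, hy.2]
  have hsub : (box X).filter (fun q => q.1 ^ 3 = q.2 ^ 2 ∨ ∃ p : ℕ, p.Prime ∧ z ≤ p ∧ (p : ℤ) ∣ q.1 ∧ (p : ℤ) ∣ q.2) ⊆
      F₁ ∪ (F₀ ∪ (Finset.Icc z ⌊X ^ 2⌋₊).biUnion G) := by
    intro x hx
    rw [Finset.mem_filter] at hx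
    obtain ⟨h1, h2⟩ := hx
    rw [Finset.mem_union, Finset.mem_union, Finset.mem_biUnion]
    rcases h2 with h2 | ⟨p, h3, h4, h5, h6⟩
    · left
      rw [hF₁, Finset.mem_filter]
      exact ⟨h1, h2⟩
    · right
      by_cases h0 : x.1 = 0
      · left
        rw [hF₀, Finset.mem_filter]
        exact ⟨h1, h0⟩
      · right
        have h7 : x ∈ G p := by
          rw [hG]; simp only [Finset.mem_filter]
          exact ⟨h1, h0, h3.one_lt.le, h5, h6⟩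
        refine ⟨p, ?_, h7⟩
        rw [Finset.mem_Icc]
        exact ⟨h4, Nat.le_floor (hsize p x h7)⟩
  rw [cnt_def X (fun a b => a ^ 3 = b ^ 2 ∨ ∃ p : ℕ, p.Prime ∧ z ≤ p ∧ (p : ℤ) ∣ a ∧ (p : ℤ) ∣ b)]
  have h1 := (Finset.card_le_card hsub).trans ((Finset.card_union_le _ _).trans
    (Nat.add_le_add_left ((Finset.card_union_le _ _).trans (Nat.add_le_add_left Finset.card_biUnion_le _)) _))
  have h2 : (((box X).filter (fun q => q.1 ^ 3 = q.2 ^ 2 ∨ ∃ p : ℕ, p.Prime ∧ z ≤ p ∧ (p : ℤ) ∣ q.1 ∧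
      (p : ℤ) ∣ q.2)).card : ℝ) ≤ F₁.card + (F₀.card + ∑ p ∈ Finset.Icc z ⌊X ^ 2⌋₊, ((G p).card : ℝ)) := by
    exact_mod_cast h1
  have h3 : ∑ p ∈ Finset.Icc z ⌊X ^ 2⌋₊, ((G p).card : ℝ) ≤ 18 * X ^ 5 / z := by
    calc ∑ p ∈ Finset.Icc z ⌊X ^ 2⌋₊, ((G p).card : ℝ)
        ≤ ∑ p ∈ Finset.Icc z ⌊X ^ 2⌋₊, 9 * X ^ 5 * (1 / (p : ℝ) ^ 2) := by
          refine Finset.sum_le_sum fun p hp => hcard p ?_
          have := (Finset.mem_Icc.1 hp).1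
          omega
      _ = 9 * X ^ 5 * ∑ p ∈ Finset.Icc z ⌊X ^ 2⌋₊, (1 / (p : ℝ) ^ 2) := by rw [Finset.mul_sum]
      _ ≤ 9 * X ^ 5 * (2 / z) := by
          have := sum_inv_sq z hz ⌊X ^ 2⌋₊
          gcongr
      _ = _ := by ring
  linarith

/-- package SMALL -/
theorem t_SMALL : S_SMALL := by
  intro z hz
  filter_upwards [eventually_ge_atTop (z : ℝ)] with X hX
  have hz0 : (0 : ℝ) < z := by exact_mod_cast (by omega : 0 < z)
  have hz1 : (1 : ℝ) ≤ z := by exact_mod_cast (by omega : 1 ≤ z)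
  have hX1 : 1 ≤ X := hz1.trans hX
  have hX0 : 0 < X := by linarith
  have h := bound hX1 z (by omega)
  have h1 : X ^ 3 ≤ X ^ 5 / z := by
    rw [le_div_iff₀ hz0]
    have : (z : ℝ) ≤ X ^ 2 := by nlinarith
    calc X ^ 3 * z ≤ X ^ 3 * X ^ 2 := by gcongr
      _ = X ^ 5 := by ring
  calc _ ≤ 6 * X ^ 3 + 18 * X ^ 5 / z := h
    _ ≤ 6 * (X ^ 5 / z) + 18 * X ^ 5 / z := by gcongr
    _ = 24 / z * X ^ 5 := by ring

end Pool.Agent.U978.LS
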